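import Pool.Agent.Helper57.QZ.Stmts

/-!
# Row LL: sign, growth and continuity of the rate function
-/

set_option autoImplicit false

namespace Pool.Agent.Helper57.QZ

open MeasureTheory Set Filter Topology

theorem ll_sum_coe (y : ℕ) (f : ℕ → ℝ) :
    ∑ p : Pr y, f p = ∑ p ∈ Nat.primesBelow (y + 1), f p :=
  Finset.sum_coe_sort (Nat.primesBelow (y + 1)) f

theorem ll_aa_nonneg (σ : ℝ) (p : ℕ) : 0 ≤ aa σ p := by
  unfold aa; positivity

theorem ll_sq_sum (ε : ℝ) (hε : 0 < ε) (y : ℕ) (σ : ℝ) (hσ : 1 / 2 + ε ≤ σ) :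
    ∑ p : Pr y, aa σ p ^ 2 ≤ ∑' n : ℕ, ((n : ℝ) ^ (1 + 2 * ε))⁻¹ := by
  rw [ll_sum_coe y fun p => aa σ p ^ 2]
  have hs : Summable fun n : ℕ => ((n : ℝ) ^ (1 + 2 * ε))⁻¹ :=
    Real.summable_nat_rpow_inv.2 (by linarith)
  refine le_trans (Finset.sum_le_sum ?_)
    (hs.sum_le_tsum (Nat.primesBelow (y + 1)) fun n _ => by positivity)
  intro p hp
  have hp1 : (1 : ℝ) ≤ p := by
    have := (Nat.prime_of_mem_primesBelow hp).one_lt.le
    exact_mod_cast this
  unfold aa
  rw [← Real.rpow_natCast, ← Real.rpow_mul (by positivity), ← Real.rpow_neg (by positivity)]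
  apply Real.rpow_le_rpow_of_exponent_le hp1
  push_cast
  linarith

theorem ll_of (h1 : ST_VM1) (h3 : ST_VM3) : ST_LL := by
  intro ε hε
  refine ⟨∑' n : ℕ, ((n : ℝ) ^ (1 + 2 * ε))⁻¹, fun y σ hσ => ?_⟩
  obtain ⟨-, h3⟩ := h3
  have ce : Continuous ell :=
    continuous_iff_continuousAt.2 fun x => (h1 x).1.continuousAt
  have cr : Continuous rr :=
    continuous_iff_continuousAt.2 fun x => (h1 x).2.continuousAt
  have e0 : ell 0 = 0 := by
    obtain ⟨-, -, a, b, -⟩ := h3 0 le_rfl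
    linarith
  refine ⟨?_, ?_, ?_⟩
  · unfold Ly
    fun_prop
  · unfold Ly
    apply Finset.sum_eq_zero
    intro p _
    simp [e0]
  · intro s hs
    have hx : ∀ p : Pr y, 0 ≤ s * aa σ p := fun p => mul_nonneg hs (ll_aa_nonneg _ _)
    refine ⟨?_, ?_, ?_⟩
    · unfold Ly
      apply Finset.sum_nonneg
      intro p _
      obtain ⟨-, -, -, -, b⟩ := h3 _ (hx p)
      linarith
    · have k1 : Ly y σ s ≤ ∑ p : Pr y, s ^ 2 * aa σ p ^ 2 := by
        unfold Ly
        apply Finset.sum_le_sum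
        intro p _
        obtain ⟨-, b, c, -, -⟩ := h3 _ (hx p)
        have := mul_le_mul_of_nonneg_left b (hx p)
        nlinarith
      rw [← Finset.mul_sum] at k1
      have k2 := mul_le_mul_of_nonneg_left (ll_sq_sum ε hε.1 y σ hσ.1) (sq_nonneg s)
      linarith
    · unfold muy
      apply Finset.sum_nonneg
      intro p _
      exact mul_nonneg (ll_aa_nonneg _ _) (h3 _ (hx p)).1

end Pool.Agent.Helper57.QZ
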